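import Mathlib

/-!
# H69K: independent bits scanned by an adaptive rule

`hist g X k` is the (reversed) list of the first `k` bits of `X` seen by the rule `g`.
-/

open MeasureTheory Set

namespace H69K

/-- The list of the first `k` bits seen, the last one first. -/
def hist (g : List Bool → ℕ) (X : ℕ → Bool) : ℕ → List Bool
  | 0 => []
  | k + 1 => X (g (hist g X k)) :: hist g X k

/-- The places inspected before `r` has been seen. -/
def used (g : List Bool → ℕ) : List Bool → Finset ℕ
  | [] => ∅
  | _ :: r => insert (g r) (used g r)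

/-- The event that `r` is seen. -/
def cyl (g : List Bool → ℕ) : List Bool → Set (ℕ → Bool)
  | [] => univ
  | b :: r => {X | X ∈ cyl g r ∧ X (g r) = b}

theorem length_hist (g : List Bool → ℕ) (X : ℕ → Bool) (k : ℕ) : (hist g X k).length = k := by
  induction k with
  | zero => rfl
  | succ k ih => rw [hist, List.length_cons, ih]

theorem mem_cyl_iff (g : List Bool → ℕ) (X : ℕ → Bool) (r : List Bool) :
    X ∈ cyl g r ↔ hist g X r.length = r := by
  induction r with
  | nil => simp [cyl, hist]
  | cons b r ih =>
    rw [List.length_cons, hist]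
    constructor
    · rintro ⟨h1, h2⟩
      rw [ih.1 h1, h2]
    · intro h
      rw [List.cons.injEq] at h
      refine ⟨ih.2 h.2, ?_⟩
      rw [h.2] at h
      exact h.1

theorem cyl_congr (g : List Bool → ℕ) (r : List Bool) {X Y : ℕ → Bool} (hX : X ∈ cyl g r) :
    Y ∈ cyl g r ↔ ∀ i ∈ used g r, Y i = X i := by
  induction r with
  | nil => simp [cyl, used]
  | cons b r ih =>
    obtain ⟨h1, h2⟩ := hX
    constructor
    · rintro ⟨h3, h4⟩ i hi
      rw [used, Finset.mem_insert] at hi
      rcases hi with rfl | hi
      · rw [h4, h2]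
      · exact (ih h1).1 h3 i hi
    · intro h
      refine ⟨(ih h1).2 fun i hi => h i (Finset.mem_insert_of_mem hi), ?_⟩
      rw [h _ (Finset.mem_insert_self _ _), h2]

theorem measurableSet_coord (n : ℕ) (b : Bool) : MeasurableSet {X : ℕ → Bool | X n = b} := by
  have h : {X : ℕ → Bool | X n = b} = (fun X : ℕ → Bool => X n) ⁻¹' {b} := rfl
  rw [h]
  exact measurable_pi_apply n (measurableSet_singleton b)

theorem measurableSet_cyl (g : List Bool → ℕ) (r : List Bool) : MeasurableSet (cyl g r) := by
  induction r with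
  | nil => exact MeasurableSet.univ
  | cons b r ih => exact ih.inter (measurableSet_coord _ _)

/-- A bit which is true with probability `p`. -/
noncomputable def bern (p : unitInterval) : Measure Bool :=
  ENNReal.ofReal (p : ℝ) • Measure.dirac true + ENNReal.ofReal (1 - (p : ℝ)) • Measure.dirac false

/-- The probability of the value `b`. -/
noncomputable def q (p : unitInterval) (b : Bool) : ℝ := if b then (p : ℝ) else 1 - (p : ℝ)

theorem bern_singleton (p : unitInterval) (b : Bool) : bern p {b} = ENNReal.ofReal (q p b) := by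
  unfold bern q
  cases b <;> simp

instance (p : unitInterval) : IsProbabilityMeasure (bern p) := by
  constructor
  unfold bern
  simp only [Measure.coe_add, Measure.coe_smul, Pi.add_apply, Pi.smul_apply, measure_univ,
    smul_eq_mul, mul_one]
  rw [← ENNReal.ofReal_add p.2.1 (by linarith [p.2.2])]
  simp

/-- Independent bits. -/
noncomputable def mu (p : ℕ → unitInterval) : Measure (ℕ → Bool) :=
  Measure.infinitePi fun n => bern (p n)

instance (p : ℕ → unitInterval) : IsProbabilityMeasure (mu p) := by
  unfold mu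
  infer_instance

theorem q_nonneg (p : unitInterval) (b : Bool) : 0 ≤ q p b := by
  unfold q
  cases b
  · simp only [Bool.false_eq_true, if_false]
    linarith [p.2.2]
  · simpa using p.2.1

/-- The probability of `r`. -/
noncomputable def V (p : ℕ → unitInterval) (g : List Bool → ℕ) (r : List Bool) : ℝ :=
  (mu p).real (cyl g r)

theorem V_nonneg (p : ℕ → unitInterval) (g : List Bool → ℕ) (r : List Bool) : 0 ≤ V p g r :=
  measureReal_nonneg

theorem V_nil (p : ℕ → unitInterval) (g : List Bool → ℕ) : V p g [] = 1 := by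
  unfold V
  rw [cyl]
  exact probReal_univ

theorem V_add (p : ℕ → unitInterval) (g : List Bool → ℕ) (r : List Bool) :
    V p g (true :: r) + V p g (false :: r) = V p g r := by
  unfold V
  rw [← measureReal_union _ (measurableSet_cyl g _)]
  · congr 1
    ext X
    constructor
    · rintro (h | h)
      · exact h.1
      · exact h.1
    · intro h
      cases hb : X (g r)
      · exact Or.inr ⟨h, hb⟩
      · exact Or.inl ⟨h, hb⟩
  · rw [Set.disjoint_left]
    rintro X ⟨_, h1⟩ ⟨_, h2⟩
    rw [h1] at h2
    exact Bool.noConfusion h2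

theorem V_fresh (p : ℕ → unitInterval) (g : List Bool → ℕ) (r : List Bool) (hr : g r ∉ used g r)
    (b : Bool) : V p g (b :: r) = V p g r * q (p (g r)) b := by
  classical
  rcases (cyl g r).eq_empty_or_nonempty with h | ⟨Y, hY⟩
  · have h2 : cyl g (b :: r) = ∅ := by
      rw [Set.eq_empty_iff_forall_notMem]
      rintro X ⟨hX, _⟩
      rw [h] at hX
      exact hX
    unfold V
    rw [h2, h]
    simp
  · have h1 : cyl g r = Set.pi (used g r) (fun i => ({Y i} : Set Bool)) := by
      ext X
      rw [cyl_congr g r hY]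
      simp [Set.mem_pi]
    have h2 : cyl g (b :: r) = Set.pi (insert (g r) (used g r) : Finset ℕ)
        (fun i => if i = g r then ({b} : Set Bool) else {Y i}) := by
      ext X
      have h3 : X ∈ cyl g (b :: r) ↔ X ∈ cyl g r ∧ X (g r) = b := Iff.rfl
      rw [h3, cyl_congr g r hY, Set.mem_pi]
      constructor
      · rintro ⟨h4, h5⟩ i hi
        by_cases hig : i = g r
        · rw [if_pos hig, hig]
          exact h5
        · rw [if_neg hig]
          have hi' : i ∈ insert (g r) (used g r) := hi
          rw [Finset.mem_insert] at hi'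
          exact h4 i (hi'.resolve_left hig)
      · intro h4
        refine ⟨fun i hi => ?_, ?_⟩
        · have h5 := h4 i (Finset.mem_coe.2 (Finset.mem_insert_of_mem hi))
          rw [if_neg (fun h : i = g r => hr (h ▸ hi))] at h5
          exact h5
        · have h5 := h4 (g r) (Finset.mem_coe.2 (Finset.mem_insert_self _ _))
          rw [if_pos rfl] at h5
          exact h5
    unfold V Measure.real
    rw [h1, h2]
    unfold mu
    rw [Measure.infinitePi_pi _ (fun i _ => measurableSet_singleton _),
      Measure.infinitePi_pi _ (fun i _ => by split_ifs <;> exact measurableSet_singleton _),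
      Finset.prod_insert hr, if_pos rfl, ENNReal.toReal_mul, bern_singleton,
      ENNReal.toReal_ofReal (q_nonneg _ _), mul_comm]
    congr 2
    refine Finset.prod_congr rfl fun i hi => ?_
    rw [if_neg (fun h : i = g r => hr (h ▸ hi))]

/-- All lists of length `k`. -/
def lists : ℕ → Finset (List Bool)
  | 0 => {[]}
  | k + 1 => (lists k).image (fun r => true :: r) ∪ (lists k).image (fun r => false :: r)

theorem mem_lists (r : List Bool) : r ∈ lists r.length := by
  induction r with
  | nil => simp [lists]
  | cons b r ih =>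
    rw [List.length_cons, lists, Finset.mem_union, Finset.mem_image, Finset.mem_image]
    cases b
    · exact Or.inr ⟨r, ih, rfl⟩
    · exact Or.inl ⟨r, ih, rfl⟩

theorem sum_lists (k : ℕ) (G : List Bool → ℝ) :
    ∑ r ∈ lists (k + 1), G r = ∑ r ∈ lists k, (G (true :: r) + G (false :: r)) := by
  rw [lists, Finset.sum_union, Finset.sum_image, Finset.sum_image, Finset.sum_add_distrib]
  · intro a _ b _ h
    exact (List.cons.inj h).2
  · intro a _ b _ h
    exact (List.cons.inj h).2
  · rw [Finset.disjoint_left]
    intro r h1 h2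
    obtain ⟨a, _, rfl⟩ := Finset.mem_image.1 h1
    obtain ⟨b, _, hb⟩ := Finset.mem_image.1 h2
    exact Bool.noConfusion (List.cons.inj hb).1

/-- The exponential functional. -/
noncomputable def FF (φ : List Bool → Bool → ℝ) : List Bool → ℝ
  | [] => 0
  | b :: r => FF φ r + φ r b

/-- The assumption on `φ`. -/
def Good (p : ℕ → unitInterval) (g : List Bool → ℕ) (φ : List Bool → Bool → ℝ) : Prop :=
  ∀ r, (g r ∉ used g r ∧ q (p (g r)) true * Real.exp (φ r true) +
    q (p (g r)) false * Real.exp (φ r false) ≤ 1) ∨ (φ r true = 0 ∧ φ r false = 0)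

theorem sum_le_one (p : ℕ → unitInterval) (g : List Bool → ℕ) (φ : List Bool → Bool → ℝ)
    (hφ : Good p g φ) (k : ℕ) : ∑ r ∈ lists k, V p g r * Real.exp (FF φ r) ≤ 1 := by
  induction k with
  | zero => simp [lists, FF, V_nil]
  | succ k ih =>
    rw [sum_lists]
    refine le_trans (Finset.sum_le_sum fun r _ => ?_) ih
    rw [FF, FF, Real.exp_add, Real.exp_add]
    have h0 := V_nonneg p g r
    have h1 := Real.exp_pos (FF φ r)
    rcases hφ r with ⟨h2, h3⟩ | ⟨h2, h3⟩
    · rw [V_fresh p g r h2, V_fresh p g r h2]
      have h4 : V p g r * q (p (g r)) true * (Real.exp (FF φ r) * Real.exp (φ r true)) +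
          V p g r * q (p (g r)) false * (Real.exp (FF φ r) * Real.exp (φ r false)) =
          (V p g r * Real.exp (FF φ r)) * (q (p (g r)) true * Real.exp (φ r true) +
            q (p (g r)) false * Real.exp (φ r false)) := by ring
      rw [h4]
      exact mul_le_of_le_one_right (mul_nonneg h0 h1.le) h3
    · rw [h2, h3, Real.exp_zero, mul_one, ← add_mul, V_add]

/-- Markov's inequality for the exponential functional. -/
theorem markov (p : ℕ → unitInterval) (g : List Bool → ℕ) (φ : List Bool → Bool → ℝ)
    (hφ : Good p g φ) (k : ℕ) (c : ℝ) :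
    mu p {X | c ≤ FF φ (hist g X k)} ≤ ENNReal.ofReal (Real.exp (-c)) := by
  classical
  have h1 : {X | c ≤ FF φ (hist g X k)} ⊆
      ⋃ r ∈ (lists k).filter (fun r => c ≤ FF φ r), cyl g r := by
    intro X hX
    rw [Set.mem_iUnion₂]
    have h2 := length_hist g X k
    refine ⟨hist g X k, ?_, ?_⟩
    · rw [Finset.mem_filter]
      refine ⟨?_, hX⟩
      have h3 := mem_lists (hist g X k)
      rwa [h2] at h3
    · rw [mem_cyl_iff, h2]
  have h5 : ∀ r, mu p (cyl g r) = ENNReal.ofReal (V p g r) := by
    intro r
    unfold V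
    rw [ofReal_measureReal]
  calc mu p {X | c ≤ FF φ (hist g X k)}
      ≤ mu p (⋃ r ∈ (lists k).filter (fun r => c ≤ FF φ r), cyl g r) := measure_mono h1
    _ ≤ ∑ r ∈ (lists k).filter (fun r => c ≤ FF φ r), mu p (cyl g r) :=
        measure_biUnion_finset_le _ _
    _ = ∑ r ∈ (lists k).filter (fun r => c ≤ FF φ r), ENNReal.ofReal (V p g r) :=
        Finset.sum_congr rfl fun r _ => h5 r
    _ = ENNReal.ofReal (∑ r ∈ (lists k).filter (fun r => c ≤ FF φ r), V p g r) := by
        rw [ENNReal.ofReal_sum_of_nonneg fun r _ => V_nonneg p g r]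
    _ ≤ ENNReal.ofReal (Real.exp (-c)) := by
        apply ENNReal.ofReal_le_ofReal
        have h6 : ∑ r ∈ (lists k).filter (fun r => c ≤ FF φ r), V p g r ≤
            ∑ r ∈ (lists k).filter (fun r => c ≤ FF φ r),
              Real.exp (-c) * (V p g r * Real.exp (FF φ r)) := by
          refine Finset.sum_le_sum fun r hr => ?_
          have h7 := (Finset.mem_filter.1 hr).2
          have h8 : 1 ≤ Real.exp (-c) * Real.exp (FF φ r) := by
            rw [← Real.exp_add]
            exact Real.one_le_exp (by linarith)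
          have h9 := V_nonneg p g r
          nlinarith
        refine h6.trans ?_
        rw [← Finset.mul_sum]
        have h7 : ∑ r ∈ (lists k).filter (fun r => c ≤ FF φ r), V p g r * Real.exp (FF φ r) ≤ 1 :=
          le_trans (Finset.sum_le_sum_of_subset_of_nonneg (Finset.filter_subset _ _)
            fun r _ _ => mul_nonneg (V_nonneg p g r) (Real.exp_pos _).le)
            (sum_le_one p g φ hφ k)
        have h8 := Real.exp_pos (-c)
        nlinarith

/-- The moment generating function of a centred bit. -/
theorem mgf_le (p : unitInterval) (l : ℝ) (hl : |l| ≤ 1) :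
    q p true * Real.exp (l * (1 - (p : ℝ)) - l ^ 2) +
      q p false * Real.exp (l * (0 - (p : ℝ)) - l ^ 2) ≤ 1 := by
  have hp0 := p.2.1
  have hp1 := p.2.2
  set x : ℝ := (p : ℝ) with hx
  have key : ∀ y : ℝ, |y| ≤ 1 → Real.exp y ≤ 1 + y + y ^ 2 := by
    intro y hy
    have := abs_le.1 (Real.abs_exp_sub_one_sub_id_le hy)
    linarith [this.2]
  have hl' := abs_le.1 hl
  have h1 : Real.exp (l * (1 - x)) ≤ 1 + l * (1 - x) + (l * (1 - x)) ^ 2 := by
    apply key
    rw [abs_mul, abs_of_nonneg (by linarith : (0 : ℝ) ≤ 1 - x)]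
    nlinarith [abs_nonneg l]
  have h2 : Real.exp (l * (0 - x)) ≤ 1 + l * (0 - x) + (l * (0 - x)) ^ 2 := by
    apply key
    rw [abs_mul, zero_sub, abs_neg, abs_of_nonneg hp0]
    nlinarith [abs_nonneg l]
  unfold q
  simp only [if_true, Bool.false_eq_true, if_false]
  rw [Real.exp_sub, Real.exp_sub]
  have h3 : x * (Real.exp (l * (1 - x)) / Real.exp (l ^ 2)) +
      (1 - x) * (Real.exp (l * (0 - x)) / Real.exp (l ^ 2)) =
      (x * Real.exp (l * (1 - x)) + (1 - x) * Real.exp (l * (0 - x))) / Real.exp (l ^ 2) := by
    ring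
  rw [← hx, h3, div_le_one (Real.exp_pos _)]
  have h4 : x * Real.exp (l * (1 - x)) + (1 - x) * Real.exp (l * (0 - x)) ≤
      x * (1 + l * (1 - x) + (l * (1 - x)) ^ 2) +
        (1 - x) * (1 + l * (0 - x) + (l * (0 - x)) ^ 2) :=
    add_le_add (mul_le_mul_of_nonneg_left h1 hp0) (mul_le_mul_of_nonneg_left h2 (by linarith))
  have h5 : x * (1 + l * (1 - x) + (l * (1 - x)) ^ 2) +
      (1 - x) * (1 + l * (0 - x) + (l * (0 - x)) ^ 2) = 1 + l ^ 2 * (x * (1 - x)) := by ring
  have h6 : x * (1 - x) ≤ 1 := by nlinarith
  have h7 := Real.add_one_le_exp (l ^ 2)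
  nlinarith [sq_nonneg l]

end H69K
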