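import Mathlib
import Pool.Agent.Lib.H69K.Prob

/-!
# H69K: the law of large numbers for adaptively selected bits
-/

open MeasureTheory Set Filter

namespace H69K

/-- The value of a bit. -/
def val (b : Bool) : ℝ := if b then 1 else 0

/-- The number of selected bits. -/
def cnt (c : List Bool → Bool) : List Bool → ℕ
  | [] => 0
  | _ :: r => cnt c r + if c r then 1 else 0

/-- The sum of the centred selected bits. -/
noncomputable def DD (p : ℕ → unitInterval) (g : List Bool → ℕ) (c : List Bool → Bool) :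
    List Bool → ℝ
  | [] => 0
  | b :: r => DD p g c r + if c r then (val b - (p (g r) : ℝ)) else 0

open Classical in
/-- The exponent, stopped after `m` selected bits. -/
noncomputable def phi (p : ℕ → unitInterval) (g : List Bool → ℕ) (c : List Bool → Bool) (m : ℕ)
    (l : ℝ) (r : List Bool) (b : Bool) : ℝ :=
  if g r ∉ used g r ∧ c r = true ∧ cnt c r < m then l * (val b - (p (g r) : ℝ)) - l ^ 2 else 0

theorem phi_good (p : ℕ → unitInterval) (g : List Bool → ℕ) (c : List Bool → Bool) (m : ℕ)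
    (l : ℝ) (hl : |l| ≤ 1) : Good p g (phi p g c m l) := by
  intro r
  by_cases h : g r ∉ used g r ∧ c r = true ∧ cnt c r < m
  · left
    refine ⟨h.1, ?_⟩
    unfold phi
    rw [if_pos h, if_pos h]
    have := mgf_le (p (g r)) l hl
    simpa [val] using this
  · right
    unfold phi
    exact ⟨if_neg h, if_neg h⟩

/-- All inspected places are different. -/
def Fresh (g : List Bool → ℕ) (X : ℕ → Bool) : Prop := ∀ k, g (hist g X k) ∉ used g (hist g X k)

theorem FF_of_le (p : ℕ → unitInterval) (g : List Bool → ℕ) (c : List Bool → Bool) (m : ℕ)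
    (l : ℝ) (X : ℕ → Bool) (hX : Fresh g X) (k : ℕ) (hk : cnt c (hist g X k) ≤ m) :
    FF (phi p g c m l) (hist g X k) =
      l * DD p g c (hist g X k) - l ^ 2 * (cnt c (hist g X k) : ℝ) := by
  induction k with
  | zero => simp [hist, FF, DD, cnt]
  | succ k ih =>
    rw [hist, FF, DD, cnt]
    rw [hist, cnt] at hk
    rw [ih (by omega)]
    by_cases hc : c (hist g X k) = true
    · rw [if_pos hc] at hk
      rw [if_pos hc, if_pos hc]
      unfold phi
      rw [if_pos ⟨hX k, hc, by omega⟩]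
      push_cast
      ring
    · rw [if_neg hc, if_neg hc]
      unfold phi
      rw [if_neg fun h => hc h.2.1]
      push_cast
      ring

theorem cnt_mono (g : List Bool → ℕ) (c : List Bool → Bool) (X : ℕ → Bool) {k k' : ℕ}
    (h : k ≤ k') : cnt c (hist g X k) ≤ cnt c (hist g X k') := by
  induction k', h using Nat.le_induction with
  | base => exact le_rfl
  | succ k' _ ih =>
    rw [hist, cnt]
    exact ih.trans (Nat.le_add_right _ _)

theorem FF_const (p : ℕ → unitInterval) (g : List Bool → ℕ) (c : List Bool → Bool) (m : ℕ)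
    (l : ℝ) (X : ℕ → Bool) {K k : ℕ} (hK : cnt c (hist g X K) = m) (hk : K ≤ k) :
    FF (phi p g c m l) (hist g X k) = FF (phi p g c m l) (hist g X K) := by
  induction k, hk using Nat.le_induction with
  | base => rfl
  | succ k hk ih =>
    rw [hist, FF, ih]
    have h1 := cnt_mono g c X hk
    unfold phi
    rw [if_neg fun h => by have := h.2.2; omega, add_zero]

/-- The event that the first `m` selected bits deviate. -/
def Ev (p : ℕ → unitInterval) (g : List Bool → ℕ) (c : List Bool → Bool) (l : ℝ) (m : ℕ) :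
    Set (ℕ → Bool) :=
  {X | ∃ K, cnt c (hist g X K) = m ∧ Fresh g X ∧ 2 * l ^ 2 * m ≤ l * DD p g c (hist g X K)}

theorem measure_Ev_le (p : ℕ → unitInterval) (g : List Bool → ℕ) (c : List Bool → Bool) (l : ℝ)
    (hl : |l| ≤ 1) (m : ℕ) :
    mu p (Ev p g c l m) ≤ ENNReal.ofReal (Real.exp (-(l ^ 2 * m))) := by
  set E : ℕ → Set (ℕ → Bool) := fun k => {X | l ^ 2 * m ≤ FF (phi p g c m l) (hist g X k)}
    with hE
  have h1 : Ev p g c l m ⊆ ⋃ K, ⋂ k ∈ Set.Ici K, E k := by
    rintro X ⟨K, hK, hf, hD⟩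
    rw [Set.mem_iUnion]
    refine ⟨K, ?_⟩
    rw [Set.mem_iInter₂]
    intro k hk
    show l ^ 2 * m ≤ FF (phi p g c m l) (hist g X k)
    rw [FF_const p g c m l X hK hk, FF_of_le p g c m l X hf K hK.le, hK]
    linarith
  have h2 : Monotone fun K => ⋂ k ∈ Set.Ici K, E k := by
    intro a b hab X hX
    rw [Set.mem_iInter₂] at hX ⊢
    intro k hk
    exact hX k (le_trans hab hk)
  calc mu p (Ev p g c l m) ≤ mu p (⋃ K, ⋂ k ∈ Set.Ici K, E k) := measure_mono h1
    _ = ⨆ K, mu p (⋂ k ∈ Set.Ici K, E k) := h2.measure_iUnion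
    _ ≤ ENNReal.ofReal (Real.exp (-(l ^ 2 * m))) := by
        refine iSup_le fun K => ?_
        refine le_trans (measure_mono (Set.iInter₂_subset K (Set.mem_Ici.2 le_rfl))) ?_
        exact markov p g _ (phi_good p g c m l hl) K _

theorem ae_not_Ev (p : ℕ → unitInterval) (g : List Bool → ℕ) (c : List Bool → Bool) (l : ℝ)
    (hl : |l| ≤ 1) (hl0 : l ≠ 0) : ∀ᵐ X ∂(mu p), ∀ᶠ m in atTop, X ∉ Ev p g c l m := by
  apply ae_eventually_notMem
  have h1 : ∑' m, mu p (Ev p g c l m) ≤ ∑' m : ℕ, ENNReal.ofReal (Real.exp (-(l ^ 2 * m))) :=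
    ENNReal.tsum_le_tsum fun m => measure_Ev_le p g c l hl m
  have h2 : Summable fun m : ℕ => Real.exp (-(l ^ 2 * m)) := by
    have h3 : (fun m : ℕ => Real.exp (-(l ^ 2 * m))) = fun m : ℕ => Real.exp (-(l ^ 2)) ^ m := by
      funext m
      rw [← Real.exp_nat_mul]
      congr 1
      ring
    rw [h3]
    apply summable_geometric_of_lt_one (Real.exp_pos _).le
    rw [Real.exp_lt_one_iff]
    have := sq_pos_of_ne_zero hl0
    linarith
  refine ne_top_of_le_ne_top ?_ h1
  rw [← ENNReal.ofReal_tsum_of_nonneg (fun m => (Real.exp_pos _).le) h2]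
  exact ENNReal.ofReal_ne_top

theorem ae_dev (p : ℕ → unitInterval) (g : List Bool → ℕ) (c : List Bool → Bool) :
    ∀ᵐ X ∂(mu p), ∀ j : ℕ, ∀ᶠ m : ℕ in atTop, ∀ K, cnt c (hist g X K) = m → Fresh g X →
      |DD p g c (hist g X K)| ≤ m / ((j : ℝ) + 1) := by
  rw [ae_all_iff]
  intro j
  have hj : (0 : ℝ) < (j : ℝ) + 1 := by positivity
  set l : ℝ := 1 / (2 * ((j : ℝ) + 1)) with hl
  have hl0 : 0 < l := by positivity
  have hl1 : l ≤ 1 := by
    rw [hl, div_le_one (by positivity)]
    have : (0 : ℝ) ≤ j := Nat.cast_nonneg j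
    linarith
  have h1 := ae_not_Ev p g c l (by rw [abs_of_pos hl0]; exact hl1) hl0.ne'
  have h2 := ae_not_Ev p g c (-l) (by rw [abs_neg, abs_of_pos hl0]; exact hl1)
    (neg_ne_zero.2 hl0.ne')
  filter_upwards [h1, h2] with X hX1 hX2
  filter_upwards [hX1, hX2] with m hm1 hm2 K hK hf
  have hl2 : (m : ℝ) / ((j : ℝ) + 1) = 2 * l * m := by
    rw [hl]
    field_simp
  rw [hl2, abs_le]
  constructor
  · by_contra hcon
    push Not at hcon
    apply hm2
    refine ⟨K, hK, hf, ?_⟩
    nlinarith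
  · by_contra hcon
    push Not at hcon
    apply hm1
    refine ⟨K, hK, hf, ?_⟩
    nlinarith

end H69K
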