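import Mathlib
import Pool.Agent.Lib.H69K.LLN

/-!
# H69K: independent bits with biases tending to zero are KL-stochastic almost surely
-/

open MeasureTheory Set Filter

namespace H69K

/-- Every infinite subsequence of `X` selected by `f` satisfies the law of large numbers. -/
def KLf (f : List Bool →. ℕ × Bool) (X : ℕ → Bool) : Prop :=
  ∀ pos : ℕ → ℕ, ∀ sel : ℕ → Bool,
    (∀ k : ℕ, f (List.ofFn (fun i : Fin k => X (pos i))) = Part.some (pos k, sel k)) →
    Function.Injective pos →
    Set.Infinite {k : ℕ | sel k = true} →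
    Filter.Tendsto
      (fun m : ℕ =>
        (((Finset.range m).filter
          (fun j => X (pos (Nat.nth (fun k => sel k = true) j)) = true)).card : ℝ) / (m : ℝ))
      Filter.atTop (nhds (1 / 2 : ℝ))

open Classical in
/-- A total extension of `f`. -/
noncomputable def tot (f : List Bool →. ℕ × Bool) (w : List Bool) : ℕ × Bool :=
  if h : (f w).Dom then (f w).get h else (0, false)

theorem tot_eq {f : List Bool →. ℕ × Bool} {w : List Bool} {a : ℕ × Bool}
    (h : f w = Part.some a) : tot f w = a := by
  unfold tot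
  have h1 : (f w).Dom := by
    rw [h]
    trivial
  rw [dif_pos h1]
  exact Part.get_eq_of_mem (by rw [h]; exact Part.mem_some a) h1

/-- The places of `f`, for reversed lists. -/
noncomputable def gf (f : List Bool →. ℕ × Bool) (r : List Bool) : ℕ := (tot f r.reverse).1

/-- The selection of `f`, for reversed lists. -/
noncomputable def cf (f : List Bool →. ℕ × Bool) (r : List Bool) : Bool := (tot f r.reverse).2

section run

variable {f : List Bool →. ℕ × Bool} {X : ℕ → Bool} {pos : ℕ → ℕ} {sel : ℕ → Bool}

theorem hist_run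
    (hrun : ∀ k : ℕ, f (List.ofFn (fun i : Fin k => X (pos i))) = Part.some (pos k, sel k))
    (k : ℕ) : hist (gf f) X k = (List.ofFn (fun i : Fin k => X (pos i))).reverse := by
  induction k with
  | zero => rfl
  | succ k ih =>
    rw [hist, ih]
    have h1 : gf f (List.ofFn (fun i : Fin k => X (pos i))).reverse = pos k := by
      unfold gf
      rw [List.reverse_reverse, tot_eq (hrun k)]
    rw [h1, List.ofFn_succ_last, List.reverse_append]
    rfl

theorem gf_run
    (hrun : ∀ k : ℕ, f (List.ofFn (fun i : Fin k => X (pos i))) = Part.some (pos k, sel k))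
    (k : ℕ) : gf f (hist (gf f) X k) = pos k := by
  rw [hist_run hrun]
  unfold gf
  rw [List.reverse_reverse, tot_eq (hrun k)]

theorem cf_run
    (hrun : ∀ k : ℕ, f (List.ofFn (fun i : Fin k => X (pos i))) = Part.some (pos k, sel k))
    (k : ℕ) : cf f (hist (gf f) X k) = sel k := by
  rw [hist_run hrun]
  unfold cf
  rw [List.reverse_reverse, tot_eq (hrun k)]

theorem used_run
    (hrun : ∀ k : ℕ, f (List.ofFn (fun i : Fin k => X (pos i))) = Part.some (pos k, sel k))
    (k : ℕ) : used (gf f) (hist (gf f) X k) = (Finset.range k).image pos := by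
  induction k with
  | zero => rfl
  | succ k ih => rw [hist, used, ih, gf_run hrun, Finset.range_add_one, Finset.image_insert]

theorem fresh_run
    (hrun : ∀ k : ℕ, f (List.ofFn (fun i : Fin k => X (pos i))) = Part.some (pos k, sel k))
    (hinj : Function.Injective pos) : Fresh (gf f) X := by
  intro k hk
  rw [used_run hrun, gf_run hrun, Finset.mem_image] at hk
  obtain ⟨i, hi, hik⟩ := hk
  have := hinj hik
  rw [Finset.mem_range] at hi
  omega

theorem cnt_run
    (hrun : ∀ k : ℕ, f (List.ofFn (fun i : Fin k => X (pos i))) = Part.some (pos k, sel k))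
    (k : ℕ) : cnt (cf f) (hist (gf f) X k) = Nat.count (fun i => sel i = true) k := by
  induction k with
  | zero => rfl
  | succ k ih => rw [hist, cnt, ih, cf_run hrun, Nat.count_succ]

theorem DD_run (p : ℕ → unitInterval)
    (hrun : ∀ k : ℕ, f (List.ofFn (fun i : Fin k => X (pos i))) = Part.some (pos k, sel k))
    (k : ℕ) : DD p (gf f) (cf f) (hist (gf f) X k) =
      ∑ i ∈ (Finset.range k).filter (fun i => sel i = true),
        (val (X (pos i)) - (p (pos i) : ℝ)) := by
  induction k with
  | zero => rfl
  | succ k ih =>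
    rw [hist, DD, ih, cf_run hrun, gf_run hrun, Finset.range_add_one, Finset.filter_insert]
    split_ifs with h
    · rw [Finset.sum_insert (by simp), add_comm]
    · rw [add_zero]

end run

theorem sum_nth (P : ℕ → Prop) [DecidablePred P] (hP : {i | P i}.Infinite) (h : ℕ → ℝ) (m : ℕ) :
    ∑ i ∈ (Finset.range (Nat.nth P m)).filter P, h i = ∑ j ∈ Finset.range m, h (Nat.nth P j) := by
  induction m with
  | zero =>
    rw [Finset.range_zero, Finset.sum_empty]
    apply Finset.sum_eq_zero
    intro i hi
    rw [Finset.mem_filter, Finset.mem_range, Nat.nth_zero] at hi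
    exact absurd (Nat.sInf_le hi.2) (not_le.2 hi.1)
  | succ m ih =>
    rw [Nat.filter_range_nth_eq_insert_of_infinite hP, Finset.sum_insert, ih,
      Finset.sum_range_succ, add_comm]
    rw [Finset.mem_filter, Finset.mem_range]
    exact fun hcon => lt_irrefl _ hcon.1

theorem ae_KLf (p : ℕ → unitInterval) (hp : Tendsto (fun n => (p n : ℝ)) atTop (nhds (1 / 2)))
    (f : List Bool →. ℕ × Bool) : ∀ᵐ X ∂(mu p), KLf f X := by
  filter_upwards [ae_dev p (gf f) (cf f)] with X hX pos sel hrun hinj hinf
  set a : ℕ → ℕ := fun j => pos (Nat.nth (fun k => sel k = true) j) with ha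
  have hainj : Function.Injective a :=
    hinj.comp (Nat.nth_strictMono hinf).injective
  have h1 : Tendsto (fun m : ℕ => (m : ℝ)⁻¹ * ∑ j ∈ Finset.range m, (p (a j) : ℝ)) atTop
      (nhds (1 / 2)) := (hp.comp hainj.nat_tendsto_atTop).cesaro
  have h2 : Tendsto (fun m : ℕ => (m : ℝ)⁻¹ * ∑ j ∈ Finset.range m,
      (val (X (a j)) - (p (a j) : ℝ))) atTop (nhds 0) := by
    rw [Metric.tendsto_atTop]
    intro ε hε
    obtain ⟨j0, hj0⟩ := exists_nat_one_div_lt hε
    obtain ⟨N, hN⟩ := eventually_atTop.1 (hX j0)
    refine ⟨max N 1, fun m hm => ?_⟩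
    have hm1 : 1 ≤ m := le_trans (le_max_right _ _) hm
    have hm0 : (0 : ℝ) < m := by exact_mod_cast hm1
    have h3 := hN m (le_trans (le_max_left _ _) hm) (Nat.nth (fun k => sel k = true) m)
      (by rw [cnt_run hrun, Nat.count_nth_of_infinite hinf]) (fresh_run hrun hinj)
    rw [DD_run p hrun, sum_nth _ hinf (fun i => val (X (pos i)) - (p (pos i) : ℝ))] at h3
    rw [Real.dist_eq, sub_zero, abs_mul, abs_of_pos (inv_pos.2 hm0)]
    calc (m : ℝ)⁻¹ * |∑ j ∈ Finset.range m, (val (X (a j)) - (p (a j) : ℝ))|
        ≤ (m : ℝ)⁻¹ * (m / ((j0 : ℝ) + 1)) := by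
          exact mul_le_mul_of_nonneg_left h3 (inv_pos.2 hm0).le
      _ = 1 / ((j0 : ℝ) + 1) := by field_simp
      _ < ε := hj0
  have h3 := h1.add h2
  rw [add_zero] at h3
  refine h3.congr fun m => ?_
  rw [← mul_add, ← Finset.sum_add_distrib]
  have h4 : ∑ j ∈ Finset.range m, ((p (a j) : ℝ) + (val (X (a j)) - (p (a j) : ℝ))) =
      (((Finset.range m).filter (fun j => X (a j) = true)).card : ℝ) := by
    rw [Finset.card_filter]
    push_cast
    refine Finset.sum_congr rfl fun j _ => ?_
    unfold val
    ring
  rw [h4, div_eq_inv_mul]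

/-- The set of all partial recursive rules is countable. -/
theorem countable_rules : {f : List Bool →. ℕ × Bool | Partrec f}.Countable := by
  classical
  have h1 : ∀ f : {f : List Bool →. ℕ × Bool | Partrec f}, ∃ c : Nat.Partrec.Code,
      c.eval = fun n => Part.bind (Encodable.decode (α := List Bool) n) fun a =>
        (f.1 a).map Encodable.encode := fun f => Nat.Partrec.Code.exists_code.1 f.2
  choose code hcode using h1
  have h2 : Function.Injective code := by
    intro f g hfg
    apply Subtype.ext
    funext w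
    have h3 := hcode f
    rw [hfg, hcode g] at h3
    have h4 := congrFun h3 (Encodable.encode w)
    simp only [Encodable.encodek, Part.coe_some, Part.bind_some] at h4
    have h5 : Function.Injective (Encodable.encode : ℕ × Bool → ℕ) := Encodable.encode_injective
    apply Part.ext
    intro a
    have h6 : Encodable.encode a ∈ Part.map Encodable.encode (g.1 w) ↔
        Encodable.encode a ∈ Part.map Encodable.encode (f.1 w) := by rw [h4]
    rw [Part.mem_map_iff, Part.mem_map_iff] at h6
    constructor
    · intro ha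
      obtain ⟨b, hb, hba⟩ := h6.2 ⟨a, ha, rfl⟩
      rwa [← h5 hba]
    · intro ha
      obtain ⟨b, hb, hba⟩ := h6.1 ⟨a, ha, rfl⟩
      rwa [← h5 hba]
  exact h2.countable

theorem ae_KL (p : ℕ → unitInterval) (hp : Tendsto (fun n => (p n : ℝ)) atTop (nhds (1 / 2))) :
    ∀ᵐ X ∂(mu p), ∀ f : List Bool →. ℕ × Bool, Partrec f → KLf f X := by
  have h := (ae_ball_iff countable_rules (p := fun X f _ => KLf f X)).2 fun f _ => ae_KLf p hp f
  exact h

end H69K
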