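import Mathlib
import Pool.Agent.Lib.H69K.KL

/-!
# H69K: the labelled tree and its path
-/

open MeasureTheory Set Filter

namespace H69K

/-- The size of the bias in the block `k`. -/
noncomputable def dl (k : ℕ) : ℝ := (3 / 4) ^ k / 2

theorem dl_pos (k : ℕ) : 0 < dl k := by
  unfold dl
  positivity

theorem dl_anti {a b : ℕ} (h : a ≤ b) : dl b ≤ dl a := by
  unfold dl
  have := pow_le_pow_of_le_one (by norm_num : (0 : ℝ) ≤ 3 / 4) (by norm_num) h
  linarith

theorem dl_le (k : ℕ) : dl k ≤ 1 / 2 := by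
  have := dl_anti (Nat.zero_le k)
  have h : dl 0 = 1 / 2 := by
    unfold dl
    norm_num
  linarith

/-- The bias of the label of the node `w`: in the block `(2^k, 2^(k+1))` towards the bit `w(2^k)`. -/
noncomputable def bias (w : List Bool) : ℝ :=
  if 2 ^ Nat.log 2 w.length < w.length then
    (if w.getD (2 ^ Nat.log 2 w.length) false then dl (Nat.log 2 w.length)
      else -dl (Nat.log 2 w.length)) else 0

theorem abs_bias (w : List Bool) : |bias w| ≤ dl (Nat.log 2 w.length) := by
  have h := dl_pos (Nat.log 2 w.length)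
  unfold bias
  split_ifs
  · rw [abs_of_pos h]
  · rw [abs_neg, abs_of_pos h]
  · rw [abs_zero]
    exact h.le

/-- The probability of the label one at the node `w`. -/
noncomputable def pw (w : List Bool) : unitInterval :=
  ⟨1 / 2 + bias w, by
    have h1 := abs_le.1 (abs_bias w)
    have h2 := dl_le (Nat.log 2 w.length)
    constructor <;> linarith [h1.1, h1.2]⟩

/-- The probabilities. -/
noncomputable def pr (n : ℕ) : unitInterval :=
  match Encodable.decode₂ (List Bool) n with
  | some w => pw w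
  | none => ⟨1 / 2, by constructor <;> norm_num⟩

theorem pr_encode (w : List Bool) : (pr (Encodable.encode w) : ℝ) = 1 / 2 + bias w := by
  unfold pr
  rw [Encodable.encodek₂]
  rfl

theorem tendsto_pr : Tendsto (fun n => (pr n : ℝ)) atTop (nhds (1 / 2)) := by
  rw [Metric.tendsto_nhds]
  intro ε hε
  obtain ⟨M, hM⟩ : ∃ M, dl M < ε := by
    obtain ⟨M, hM⟩ := exists_pow_lt_of_lt_one hε (by norm_num : (3 / 4 : ℝ) < 1)
    refine ⟨M, ?_⟩
    unfold dl
    have : (0 : ℝ) < (3 / 4) ^ M := by positivity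
    linarith
  have hfin : (Encodable.encode '' {w : List Bool | w.length < 2 ^ M}).Finite :=
    (List.finite_length_lt Bool (2 ^ M)).image _
  rw [← Nat.cofinite_eq_atTop]
  have h1 := hfin.eventually_cofinite_notMem
  filter_upwards [h1] with n hn
  rw [Real.dist_eq]
  unfold pr
  rcases h2 : Encodable.decode₂ (List Bool) n with _ | w
  · simp only [sub_self, abs_zero]
    exact hε
  · show |1 / 2 + bias w - 1 / 2| < ε
    rw [add_sub_cancel_left]
    have h3 : ¬ w.length < 2 ^ M := by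
      intro h4
      apply hn
      exact ⟨w, h4, Encodable.decode₂_eq_some.1 h2⟩
    have h4 : M ≤ Nat.log 2 w.length := by
      apply Nat.le_log_of_pow_le (by norm_num)
      omega
    exact lt_of_le_of_lt ((abs_bias w).trans (dl_anti h4)) hM

/-- The places of the path. -/
def g0 (r : List Bool) : ℕ := Encodable.encode r.reverse

theorem used_g0 (r : List Bool) : ∀ n ∈ used g0 r, ∃ w : List Bool, w.length < r.length ∧
    n = Encodable.encode w := by
  induction r with
  | nil => simp [used]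
  | cons b r ih =>
    intro n hn
    rw [used, Finset.mem_insert] at hn
    rcases hn with rfl | hn
    · exact ⟨r.reverse, by simp, rfl⟩
    · obtain ⟨w, hw, h⟩ := ih n hn
      exact ⟨w, by rw [List.length_cons]; omega, h⟩

theorem fresh_g0 (r : List Bool) : g0 r ∉ used g0 r := by
  intro h
  obtain ⟨w, hw, h1⟩ := used_g0 r _ h
  have h2 := Encodable.encode_injective h1
  rw [← h2, List.length_reverse] at hw
  exact lt_irrefl _ hw

/-- The path. -/
def BB (X : ℕ → Bool) (t : ℕ) : Bool := X (g0 (hist g0 X t))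

theorem hist_g0 (X : ℕ → Bool) (t : ℕ) :
    (hist g0 X t).reverse = List.ofFn (fun i : Fin t => BB X i) := by
  induction t with
  | zero => rfl
  | succ t ih =>
    rw [hist, List.reverse_cons, ih, List.ofFn_succ_last]
    rfl

theorem getD_hist (X : ℕ → Bool) {t i : ℕ} (hi : i < t) :
    (hist g0 X t).reverse.getD i false = BB X i := by
  rw [hist_g0, List.getD_eq_getElem?_getD, List.getElem?_ofFn]
  simp [hi]

/-- The sign of the decision bit. -/
noncomputable def sg (b : Bool) : ℝ := if b then -1 else 1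

theorem sg_sq (b : Bool) : sg b ^ 2 = 1 := by
  unfold sg
  split_ifs <;> norm_num

/-- The exponent for the block `k`. -/
noncomputable def psi (k : ℕ) (r : List Bool) (b : Bool) : ℝ :=
  if 2 ^ k < r.length ∧ r.length < 2 ^ (k + 1) then
    (sg (r.reverse.getD (2 ^ k) false) * (dl k / 2)) * (val b - (pr (g0 r) : ℝ)) -
      (sg (r.reverse.getD (2 ^ k) false) * (dl k / 2)) ^ 2 else 0

theorem psi_good (k : ℕ) : Good pr g0 (psi k) := by
  intro r
  by_cases h : 2 ^ k < r.length ∧ r.length < 2 ^ (k + 1)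
  · left
    refine ⟨fresh_g0 r, ?_⟩
    unfold psi
    rw [if_pos h, if_pos h]
    have h1 : |sg (r.reverse.getD (2 ^ k) false) * (dl k / 2)| ≤ 1 := by
      rw [abs_mul]
      have h2 : |sg (r.reverse.getD (2 ^ k) false)| = 1 := by
        unfold sg
        split_ifs <;> norm_num
      rw [h2, one_mul, abs_of_pos (by have := dl_pos k; linarith)]
      have := dl_le k
      linarith
    have := mgf_le (pr (g0 r)) _ h1
    simpa [val] using this
  · right
    unfold psi
    exact ⟨if_neg h, if_neg h⟩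

theorem pr_block (X : ℕ → Bool) {k t : ℕ} (h1 : 2 ^ k < t) (h2 : t < 2 ^ (k + 1)) :
    (pr (g0 (hist g0 X t)) : ℝ) = 1 / 2 - sg (BB X (2 ^ k)) * dl k := by
  unfold g0
  rw [pr_encode]
  unfold bias
  have h3 : ((hist (fun r => Encodable.encode r.reverse) X t).reverse).length = t := by
    rw [List.length_reverse, length_hist]
  have h4 : Nat.log 2 t = k := by
    rw [Nat.log_eq_iff (Or.inr ⟨by norm_num, by omega⟩)]
    exact ⟨h1.le, h2⟩
  rw [h3, h4, if_pos h1]
  have h5 := getD_hist X h1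
  unfold g0 at h5
  rw [h5]
  unfold sg
  have h6 : BB X (2 ^ k) = X (Encodable.encode
    (hist (fun r => Encodable.encode r.reverse) X (2 ^ k)).reverse) := rfl
  split_ifs <;> ring

theorem FF_psi (X : ℕ → Bool) (k : ℕ) (t : ℕ) (ht : t ≤ 2 ^ (k + 1)) :
    FF (psi k) (hist g0 X t) = ∑ i ∈ Finset.Ico (2 ^ k + 1) t,
      ((sg (BB X (2 ^ k)) * (dl k / 2)) * (val (BB X i) - 1 / 2) + dl k ^ 2 / 4) := by
  induction t with
  | zero => simp [hist, FF]
  | succ t ih =>
    rw [hist, FF, ih (by omega)]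
    by_cases h : 2 ^ k < t
    · rw [Finset.sum_Ico_succ_top (by omega)]
      congr 1
      unfold psi
      rw [length_hist, if_pos ⟨h, by omega⟩, getD_hist X h, pr_block X h (by omega)]
      have h1 := sg_sq (BB X (2 ^ k))
      have h2 : X (g0 (hist g0 X t)) = BB X t := rfl
      rw [h2]
      linear_combination (dl k ^ 2 / 4) * h1
    · rw [Finset.Ico_eq_empty (by omega), Finset.Ico_eq_empty (by omega)]
      unfold psi
      rw [length_hist, if_neg fun h' => h h'.1]
      simp

/-- The number of ones in the block `k`. -/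
def ones (X : ℕ → Bool) (k : ℕ) : ℕ :=
  ((Finset.Ico (2 ^ k + 1) (2 ^ (k + 1))).filter (fun i => BB X i = true)).card

theorem FF_psi_block (X : ℕ → Bool) (k : ℕ) :
    FF (psi k) (hist g0 X (2 ^ (k + 1))) =
      (sg (BB X (2 ^ k)) * (dl k / 2)) * ((ones X k : ℝ) - ((2 : ℝ) ^ k - 1) / 2) +
        ((2 : ℝ) ^ k - 1) * (dl k ^ 2 / 4) := by
  rw [FF_psi X k _ le_rfl, Finset.sum_add_distrib, ← Finset.mul_sum, Finset.sum_sub_distrib,
    Finset.sum_const, Finset.sum_const, Nat.card_Ico]
  have h1 : ((2 ^ (k + 1) - (2 ^ k + 1) : ℕ) : ℝ) = (2 : ℝ) ^ k - 1 := by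
    have h2 : 2 ^ (k + 1) - (2 ^ k + 1) = 2 ^ k - 1 := by
      rw [pow_succ]
      omega
    rw [h2, Nat.cast_sub Nat.one_le_two_pow]
    push_cast
    ring
  have h2 : ∑ i ∈ Finset.Ico (2 ^ k + 1) (2 ^ (k + 1)), val (BB X i) = (ones X k : ℝ) := by
    unfold ones
    rw [Finset.card_filter]
    push_cast
    rfl
  rw [h2, nsmul_eq_mul, nsmul_eq_mul, h1]
  ring

theorem ae_block : ∀ᵐ X ∂(mu pr), ∀ᶠ k : ℕ in atTop,
    (BB X (2 ^ k) = true ↔ 2 ^ k - 1 < 2 * ones X k) := by
  have h1 : ∀ᵐ X ∂(mu pr), ∀ᶠ k : ℕ in atTop,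
      X ∉ {X | ((2 : ℝ) ^ k - 1) * (dl k ^ 2 / 4) ≤ FF (psi k) (hist g0 X (2 ^ (k + 1)))} := by
    apply ae_eventually_notMem
    have h2 : ∀ k : ℕ, mu pr {X | ((2 : ℝ) ^ k - 1) * (dl k ^ 2 / 4) ≤
        FF (psi k) (hist g0 X (2 ^ (k + 1)))} ≤ ENNReal.ofReal (32 * (8 / 9) ^ k) := by
      intro k
      refine (markov pr g0 (psi k) (psi_good k) _ _).trans (ENNReal.ofReal_le_ofReal ?_)
      rcases Nat.eq_zero_or_pos k with rfl | hk
      · simp only [pow_zero, sub_self, zero_mul, neg_zero, Real.exp_zero]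
        norm_num
      · have h3 : (2 : ℝ) ^ k / 2 ≤ (2 : ℝ) ^ k - 1 := by
          have : (2 : ℝ) ^ 1 ≤ 2 ^ k := pow_le_pow_right₀ (by norm_num) hk
          linarith
        have h4 : ((2 : ℝ) ^ k / 2) * (dl k ^ 2 / 4) = (9 / 8) ^ k / 32 := by
          unfold dl
          have h5 : ((9 : ℝ) / 8) ^ k = 2 ^ k * (3 / 4) ^ k * (3 / 4) ^ k := by
            rw [← mul_pow, ← mul_pow]
            norm_num
          rw [h5]
          ring
        have h5 : (9 / 8 : ℝ) ^ k / 32 ≤ ((2 : ℝ) ^ k - 1) * (dl k ^ 2 / 4) := by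
          rw [← h4]
          exact mul_le_mul_of_nonneg_right h3 (by positivity)
        have h6 : (0 : ℝ) < (9 / 8) ^ k / 32 := by positivity
        calc Real.exp (-(((2 : ℝ) ^ k - 1) * (dl k ^ 2 / 4)))
            ≤ Real.exp (-((9 / 8 : ℝ) ^ k / 32)) := Real.exp_le_exp.2 (by linarith)
          _ = (Real.exp ((9 / 8 : ℝ) ^ k / 32))⁻¹ := Real.exp_neg _
          _ ≤ ((9 / 8 : ℝ) ^ k / 32)⁻¹ := by
              apply inv_anti₀ h6
              have := Real.add_one_le_exp ((9 / 8 : ℝ) ^ k / 32)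
              linarith
          _ = 32 * (8 / 9) ^ k := by
              rw [inv_div]
              have h7 : (8 / 9 : ℝ) ^ k = ((9 / 8 : ℝ) ^ k)⁻¹ := by
                rw [← inv_pow]
                norm_num
              rw [h7]
              rfl
    refine ne_top_of_le_ne_top ?_ (ENNReal.tsum_le_tsum h2)
    rw [← ENNReal.ofReal_tsum_of_nonneg (fun k => by positivity)]
    · exact ENNReal.ofReal_ne_top
    · exact (summable_geometric_of_lt_one (by norm_num) (by norm_num)).mul_left _
  filter_upwards [h1] with X hX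
  filter_upwards [hX] with k hk
  rw [FF_psi_block, not_le] at hk
  have h2 := dl_pos k
  have h3 : (sg (BB X (2 ^ k)) * (dl k / 2)) * ((ones X k : ℝ) - ((2 : ℝ) ^ k - 1) / 2) < 0 := by
    linarith
  have h4 : sg (BB X (2 ^ k)) * (2 * (ones X k : ℝ) - ((2 : ℝ) ^ k - 1)) < 0 := by
    by_contra hcon
    push Not at hcon
    have : 0 ≤ (dl k / 4) * (sg (BB X (2 ^ k)) * (2 * (ones X k : ℝ) - ((2 : ℝ) ^ k - 1))) :=
      mul_nonneg (by linarith) hcon
    nlinarith
  have h5 : ((2 ^ k - 1 : ℕ) : ℝ) = (2 : ℝ) ^ k - 1 := by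
    rw [Nat.cast_sub Nat.one_le_two_pow]
    push_cast
    ring
  rw [← h5] at h4
  unfold sg at h4
  constructor
  · intro hB
    rw [if_pos hB] at h4
    have h6 : ((2 ^ k - 1 : ℕ) : ℝ) < ((2 * ones X k : ℕ) : ℝ) := by
      push_cast at h4 ⊢
      linarith
    exact_mod_cast h6
  · intro hlt
    by_contra hB
    rw [if_neg hB] at h4
    have h6 : ((2 * ones X k : ℕ) : ℝ) < ((2 ^ k - 1 : ℕ) : ℝ) := by
      push_cast at h4 ⊢
      linarith
    have h7 : 2 * ones X k < 2 ^ k - 1 := by exact_mod_cast h6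
    omega

end H69K
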