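import Mathlib
import Pool.Agent.Lib.H69K.Path

/-!
# H69K: the computable rules
-/

open MeasureTheory Set Filter

namespace H69K

/-- `n` is a power of two. -/
def PP (n : ℕ) : Prop := 2 ^ n % n = 0

instance : DecidablePred PP := fun n => Nat.decEq (2 ^ n % n) 0

theorem PP_iff {n : ℕ} : PP n ↔ ∃ k, n = 2 ^ k := by
  unfold PP
  constructor
  · intro h
    have h1 : n ∣ 2 ^ n := Nat.dvd_of_mod_eq_zero h
    obtain ⟨k, _, hk⟩ := (Nat.dvd_prime_pow Nat.prime_two).1 h1
    exact ⟨k, hk⟩
  · rintro ⟨k, rfl⟩
    exact Nat.mod_eq_zero_of_dvd (pow_dvd_pow 2 Nat.lt_two_pow_self.le)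

theorem PP_two_pow (k : ℕ) : PP (2 ^ k) := PP_iff.2 ⟨k, rfl⟩

theorem primrec_pow2 : Primrec fun n : ℕ => 2 ^ n := by
  have h1 : Primrec₂ fun (_ : ℕ) (y : ℕ) => 2 * y :=
    (Primrec.nat_mul.comp (Primrec.const 2) Primrec.snd)
  refine (Primrec.nat_rec₁ 1 h1).of_eq fun n => ?_
  induction n with
  | zero => rfl
  | succ n ih =>
    show 2 * Nat.rec 1 (fun _ y => 2 * y) n = 2 ^ (n + 1)
    rw [ih, pow_succ, mul_comm]

theorem primrec_PP : PrimrecPred PP :=
  PrimrecRel.comp Primrec.eq (Primrec.nat_mod.comp primrec_pow2 Primrec.id) (Primrec.const 0)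

/-- The rule selecting the path. -/
def f1 (w : List Bool) : ℕ × Bool := (Encodable.encode w, true)

/-- The rule selecting the decision bits of the path. -/
def f3 (w : List Bool) : ℕ × Bool := (Encodable.encode w, decide (PP w.length))

/-- The rule for the path. -/
def f2 (w : List Bool) : ℕ × Bool :=
  if PP (w.length + 1) then ((w.length + 1) / 2,
    decide ((w.length + 1) / 2 - 1 <
      2 * (List.filter (fun b => decide (b = true)) (w.drop ((w.length + 1) / 2))).length))
  else (w.length + 1, false)

theorem partrec_f1 : Partrec fun w => Part.some (f1 w) :=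
  (Computable.encode.pair (Computable.const true)).partrec

theorem partrec_f3 : Partrec fun w => Part.some (f3 w) :=
  (Primrec.encode.pair (primrec_PP.comp Primrec.list_length).decide).to_comp.partrec

theorem primrec_f2 : Primrec f2 := by
  have h1 : Primrec fun w : List Bool => w.length + 1 := Primrec.succ.comp Primrec.list_length
  have h2 : Primrec fun w : List Bool => (w.length + 1) / 2 :=
    Primrec.nat_div.comp h1 (Primrec.const 2)
  have h3 : Primrec fun w : List Bool =>
      (List.filter (fun b => decide (b = true)) (w.drop ((w.length + 1) / 2))).length := by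
    refine Primrec.list_length.comp ((Primrec.listFilter (p := fun b : Bool => b = true) ?_).comp
      (Primrec.list_drop.comp h2 Primrec.id))
    exact PrimrecRel.comp Primrec.eq Primrec.id (Primrec.const true)
  have h4 : PrimrecPred fun w : List Bool => (w.length + 1) / 2 - 1 <
      2 * (List.filter (fun b => decide (b = true)) (w.drop ((w.length + 1) / 2))).length :=
    PrimrecRel.comp Primrec.nat_lt (Primrec.nat_sub.comp h2 (Primrec.const 1))
      (Primrec.nat_mul.comp (Primrec.const 2) h3)
  exact Primrec.ite (primrec_PP.comp h1) (h2.pair h4.decide) (h1.pair (Primrec.const false))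

theorem partrec_f2 : Partrec fun w => Part.some (f2 w) := primrec_f2.to_comp.partrec

/-- The places inspected by `f2`. -/
def pos2 (t : ℕ) : ℕ := if PP (t + 1) then (t + 1) / 2 else t + 1

theorem f2_fst (w : List Bool) : (f2 w).1 = pos2 w.length := by
  unfold f2 pos2
  split_ifs <;> rfl

theorem pos2_injective : Function.Injective pos2 := by
  have half : ∀ a : ℕ, 2 ^ a / 2 = 0 ∧ a = 0 ∨ ∃ b, a = b + 1 ∧ 2 ^ a / 2 = 2 ^ b := by
    intro a
    rcases a with _ | b
    · left
      norm_num
    · right
      exact ⟨b, rfl, by rw [pow_succ]; omega⟩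
  intro s t h
  unfold pos2 at h
  split_ifs at h with h1 h2 h2
  · obtain ⟨a, ha⟩ := PP_iff.1 h1
    obtain ⟨b, hb⟩ := PP_iff.1 h2
    rw [ha, hb] at h
    have h3 : a = b := by
      rcases half a with ⟨h4, h5⟩ | ⟨a', h4, h5⟩ <;> rcases half b with ⟨h6, h7⟩ | ⟨b', h6, h7⟩
      · omega
      · rw [h4, h7] at h
        have : 0 < 2 ^ b' := by positivity
        omega
      · rw [h5, h6] at h
        have : 0 < 2 ^ a' := by positivity
        omega
      · rw [h5, h7] at h
        have := Nat.pow_right_injective le_rfl h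
        omega
    rw [h3, ← hb] at ha
    omega
  · obtain ⟨a, ha⟩ := PP_iff.1 h1
    rw [ha] at h
    rcases half a with ⟨h4, h5⟩ | ⟨a', h4, h5⟩
    · rw [h4] at h
      omega
    · rw [h5] at h
      exact absurd (h ▸ PP_two_pow a') h2
  · obtain ⟨b, hb⟩ := PP_iff.1 h2
    rw [hb] at h
    rcases half b with ⟨h4, h5⟩ | ⟨b', h4, h5⟩
    · rw [h4] at h
      omega
    · rw [h5] at h
      exact absurd (h.symm ▸ PP_two_pow b') h1
  · omega

/-- The selection made by `f2` on `B`. -/
def sel2 (B : ℕ → Bool) (k : ℕ) : Bool := (f2 (List.ofFn fun i : Fin k => B (pos2 i))).2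

theorem run2 (B : ℕ → Bool) (k : ℕ) :
    (fun w => Part.some (f2 w)) (List.ofFn fun i : Fin k => B (pos2 i)) =
      Part.some (pos2 k, sel2 B k) := by
  show Part.some _ = Part.some _
  congr 1
  refine Prod.ext ?_ rfl
  rw [f2_fst, List.length_ofFn]

theorem filter_drop_ofFn (h : ℕ → Bool) (m k : ℕ) :
    (List.filter (fun b => decide (b = true)) ((List.ofFn fun i : Fin k => h i).drop m)).length =
      ((Finset.Ico m k).filter (fun i => h i = true)).card := by
  induction k with
  | zero => simp
  | succ k ih =>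
    rw [List.ofFn_succ_last]
    by_cases hk : m ≤ k
    · rw [List.drop_append_of_le_length (by rw [List.length_ofFn]; exact hk), List.filter_append,
        List.length_append]
      have h1 : (fun i : Fin k => h (Fin.castSucc i)) = fun i : Fin k => h i := rfl
      rw [h1, ih, Finset.card_filter, Finset.card_filter, Finset.sum_Ico_succ_top hk]
      congr 1
      rw [Fin.val_last]
      by_cases h2 : h k = true
      · rw [h2]
        rfl
      · rw [Bool.not_eq_true] at h2
        rw [h2]
        rfl
    · rw [Finset.Ico_eq_empty (by omega), List.drop_eq_nil_of_le]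
      · rfl
      · rw [List.length_append, List.length_ofFn, List.length_singleton]
        omega

theorem card_block (B : ℕ → Bool) (a : ℕ) :
    ((Finset.Ico (2 ^ a) (2 ^ (a + 1) - 1)).filter (fun i => B (pos2 i) = true)).card =
      ((Finset.Ico (2 ^ a + 1) (2 ^ (a + 1))).filter (fun i => B i = true)).card := by
  have key : ∀ i, 2 ^ a ≤ i → i < 2 ^ (a + 1) - 1 → pos2 i = i + 1 := by
    intro i h1 h2
    unfold pos2
    rw [if_neg]
    intro h
    obtain ⟨c, hc⟩ := PP_iff.1 h
    have h3 : 2 ^ a < 2 ^ c := by omega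
    have h4 : 2 ^ c < 2 ^ (a + 1) := by omega
    have h5 := (Nat.pow_lt_pow_iff_right (by norm_num : 1 < 2)).1 h3
    have h6 := (Nat.pow_lt_pow_iff_right (by norm_num : 1 < 2)).1 h4
    omega
  refine Finset.card_nbij' (fun i => i + 1) (fun i => i - 1) ?_ ?_ ?_ ?_
  · intro i hi
    simp only [Finset.coe_filter, Finset.mem_Ico, Set.mem_ofPred_eq] at hi ⊢
    rw [key i hi.1.1 hi.1.2] at hi
    exact ⟨⟨by omega, by omega⟩, hi.2⟩
  · intro i hi
    simp only [Finset.coe_filter, Finset.mem_Ico, Set.mem_ofPred_eq] at hi ⊢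
    rw [key (i - 1) (by omega) (by omega)]
    refine ⟨⟨by omega, by omega⟩, ?_⟩
    have : i - 1 + 1 = i := by omega
    rw [this]
    exact hi.2
  · intro i _
    show i + 1 - 1 = i
    omega
  · intro i hi
    simp only [Finset.coe_filter, Finset.mem_Ico, Set.mem_ofPred_eq] at hi
    show i - 1 + 1 = i
    omega

theorem sel2_block (X : ℕ → Bool) (a : ℕ) :
    sel2 (BB X) (2 ^ (a + 1) - 1) = decide (2 ^ a - 1 < 2 * ones X a) := by
  have h1 : 2 ^ (a + 1) - 1 + 1 = 2 ^ (a + 1) := Nat.sub_add_cancel Nat.one_le_two_pow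
  have h2 : 2 ^ (a + 1) / 2 = 2 ^ a := by rw [pow_succ]; omega
  unfold sel2 f2
  rw [List.length_ofFn, h1, if_pos (PP_two_pow _), h2]
  show decide _ = decide _
  rw [filter_drop_ofFn (fun i => BB X (pos2 i)), card_block]
  rfl

theorem sel2_true {X : ℕ → Bool} {t : ℕ} (h : sel2 (BB X) t = true) :
    ∃ a, t = 2 ^ (a + 1) - 1 ∧ 2 ^ a - 1 < 2 * ones X a := by
  have h1 : PP (t + 1) := by
    by_contra hcon
    unfold sel2 f2 at h
    rw [List.length_ofFn, if_neg hcon] at h
    exact Bool.noConfusion h
  obtain ⟨c, hc⟩ := PP_iff.1 h1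
  rcases c with _ | a
  · exfalso
    have h2 : t = 0 := by
      rw [pow_zero] at hc
      omega
    rw [h2] at h
    have h3 : sel2 (BB X) 0 = false := by
      unfold sel2 f2
      rw [List.length_ofFn]
      have : PP (0 + 1) := PP_iff.2 ⟨0, rfl⟩
      rw [if_pos this]
      rfl
    rw [h3] at h
    exact Bool.noConfusion h
  · refine ⟨a, by omega, ?_⟩
    have h2 : t = 2 ^ (a + 1) - 1 := by omega
    rw [h2, sel2_block] at h
    exact of_decide_eq_true h

theorem pos2_block (a : ℕ) : pos2 (2 ^ (a + 1) - 1) = 2 ^ a := by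
  have h1 : 2 ^ (a + 1) - 1 + 1 = 2 ^ (a + 1) := Nat.sub_add_cancel Nat.one_le_two_pow
  unfold pos2
  rw [h1, if_pos (PP_two_pow _), pow_succ]
  omega

theorem infinite_of_half {P : ℕ → Prop} [DecidablePred P]
    (h : Tendsto (fun m : ℕ => (((Finset.range m).filter P).card : ℝ) / (m : ℝ)) atTop
      (nhds (1 / 2))) : {j | P j}.Infinite := by
  intro hfin
  have h1 : Tendsto (fun m : ℕ => (((Finset.range m).filter P).card : ℝ) / (m : ℝ)) atTop
      (nhds 0) := by
    refine squeeze_zero (fun m => by positivity) (fun m => ?_)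
      (tendsto_const_div_atTop_nhds_zero_nat (hfin.toFinset.card : ℝ))
    have h2 : ((Finset.range m).filter P).card ≤ hfin.toFinset.card := by
      apply Finset.card_le_card
      intro i hi
      rw [Set.Finite.mem_toFinset]
      exact (Finset.mem_filter.1 hi).2
    have h3 : (((Finset.range m).filter P).card : ℝ) ≤ (hfin.toFinset.card : ℝ) := by
      exact_mod_cast h2
    exact div_le_div_of_nonneg_right h3 (Nat.cast_nonneg m)
  have := tendsto_nhds_unique h h1
  norm_num at this

theorem infinite_not_of_half {P : ℕ → Prop} [DecidablePred P]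
    (h : Tendsto (fun m : ℕ => (((Finset.range m).filter P).card : ℝ) / (m : ℝ)) atTop
      (nhds (1 / 2))) : {j | ¬ P j}.Infinite := by
  apply infinite_of_half (P := fun j => ¬ P j)
  have h1 : Tendsto (fun m : ℕ => 1 - (((Finset.range m).filter P).card : ℝ) / (m : ℝ)) atTop
      (nhds (1 - 1 / 2)) := h.const_sub 1
  have h2 : (1 : ℝ) - 1 / 2 = 1 / 2 := by norm_num
  rw [h2] at h1
  refine h1.congr' ?_
  filter_upwards [eventually_gt_atTop 0] with m hm
  have h3 : ((Finset.range m).filter P).card + ((Finset.range m).filter (fun j => ¬ P j)).card =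
      m := by
    rw [Finset.card_filter_add_card_filter_not, Finset.card_range]
  have h4 : (((Finset.range m).filter P).card : ℝ) +
      (((Finset.range m).filter (fun j => ¬ P j)).card : ℝ) = m := by exact_mod_cast h3
  have h5 : (m : ℝ) ≠ 0 := by positivity
  field_simp
  linarith

end H69K
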